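import Pool.Agent.W394.BQN.Stm2

set_option autoImplicit false

noncomputable section

namespace Pool.Agent.W274.BQN

open BQ Pool.Agent.W394.BQN

section

variable (C C' : Type) [CommRing C] [CommRing C'] [Algebra C C'] (u : C) (n : ℕ)

/-- the map between the rings -/
def psi : Semi C u n →+* Semi C' (algebraMap C C' u) n :=
  Q.lft C u n (((Q.pr C' (algebraMap C C' u) n).comp MvPolynomial.C).comp (algebraMap C C'))
    (fun i => Q.pr C' (algebraMap C C' u) n (MvPolynomial.X i))
    (Q.pr_prod C' (algebraMap C C' u) n)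

theorem psi_pr (F : MvPolynomial (Fin (n + 1)) C) : psi C C' u n (Q.pr C u n F) =
    Q.pr C' (algebraMap C C' u) n (MvPolynomial.map (algebraMap C C') F) := by
  have h : (psi C C' u n).comp (Q.pr C u n) =
      (Q.pr C' (algebraMap C C' u) n).comp (MvPolynomial.map (algebraMap C C')) := by
    apply MvPolynomial.ringHom_ext
    · intro c
      rw [RingHom.comp_apply, RingHom.comp_apply, MvPolynomial.map_C]
      exact Q.lft_C C u n _ _ _ c
    · intro i
      rw [RingHom.comp_apply, RingHom.comp_apply, MvPolynomial.map_X]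
      exact Q.lft_X C u n _ _ _ i
  exact RingHom.congr_fun h F

end

attribute [local instance] MvPolynomial.algebraMvPolynomial in
theorem t_SLC (h : S_GL) : S_SLC := by
  intro C C' _ _ _ M _ u n q _ hq
  set φ : MvPolynomial (Fin (n + 1)) C →+* MvPolynomial (Fin (n + 1)) C' :=
    MvPolynomial.map (algebraMap C C') with hφ
  have hloc : IsLocalization (M.map (MvPolynomial.C (σ := Fin (n + 1))))
      (MvPolynomial (Fin (n + 1)) C') := inferInstance
  have halg : ∀ x, algebraMap (MvPolynomial (Fin (n + 1)) C) (MvPolynomial (Fin (n + 1)) C') x =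
      φ x := fun x => rfl
  have h1 : ∀ a, psi C C' u n a = 0 →
      ∃ m ∈ M.map ((Q.pr C u n).comp MvPolynomial.C), m * a = 0 := by
    intro a ha
    obtain ⟨F, rfl⟩ := Ideal.Quotient.mk_surjective a
    change psi C C' u n (Q.pr C u n F) = 0 at ha
    rw [psi_pr] at ha
    have h2 := Ideal.Quotient.eq_zero_iff_mem.1 ha
    rw [Ideal.mem_span_singleton] at h2
    obtain ⟨G, hG⟩ := h2
    obtain ⟨⟨x, m⟩, hx⟩ := IsLocalization.surj (M.map (MvPolynomial.C (σ := Fin (n + 1)))) G
    simp only at hx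
    rw [halg, halg] at hx
    set P : MvPolynomial (Fin (n + 1)) C := ∏ i, MvPolynomial.X i - MvPolynomial.C u with hP
    have hPφ : φ P = ∏ i, MvPolynomial.X i - MvPolynomial.C (algebraMap C C' u) := by
      rw [hP, map_sub, map_prod]
      simp [hφ]
    have h3 : φ (F * m) = φ (P * x) := by
      rw [map_mul, map_mul, hPφ, ← hx]
      change MvPolynomial.map (algebraMap C C') F = _ at hG
      rw [hφ, hG]
      ring
    rw [← halg, ← halg] at h3
    obtain ⟨m', hm'⟩ := (IsLocalization.eq_iff_exists (M.map (MvPolynomial.C (σ := Fin (n + 1))))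
      (MvPolynomial (Fin (n + 1)) C')).1 h3
    have hPz : Q.pr C u n P = 0 :=
      Ideal.Quotient.eq_zero_iff_mem.2 (Ideal.mem_span_singleton_self _)
    obtain ⟨c, hc, hcm⟩ := m.2
    obtain ⟨c', hc', hcm'⟩ := m'.2
    refine ⟨Q.pr C u n (MvPolynomial.C (c' * c)), ⟨c' * c, M.mul_mem hc' hc, rfl⟩, ?_⟩
    change Q.pr C u n (MvPolynomial.C (c' * c)) * Q.pr C u n F = 0
    have h4 := congrArg (Q.pr C u n) hm'
    rw [map_mul, map_mul, map_mul, map_mul, hPz, zero_mul, mul_zero] at h4
    rw [map_mul, map_mul]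
    have e1 : (MvPolynomial.C c : MvPolynomial (Fin (n + 1)) C) = m := hcm
    have e2 : (MvPolynomial.C c' : MvPolynomial (Fin (n + 1)) C) = m' := hcm'
    rw [e1, e2, ← h4]
    ring
  have h2 : ∀ b, ∃ m ∈ M.map ((Q.pr C u n).comp MvPolynomial.C), ∃ a,
      psi C C' u n m * b = psi C C' u n a := by
    intro b
    obtain ⟨G, rfl⟩ := Ideal.Quotient.mk_surjective b
    obtain ⟨⟨x, m⟩, hx⟩ := IsLocalization.surj (M.map (MvPolynomial.C (σ := Fin (n + 1)))) G
    simp only at hx
    rw [halg, halg] at hx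
    obtain ⟨c, hc, hcm⟩ := m.2
    have e1 : (MvPolynomial.C c : MvPolynomial (Fin (n + 1)) C) = m := hcm
    refine ⟨Q.pr C u n (MvPolynomial.C c), ⟨c, hc, rfl⟩, Q.pr C u n x, ?_⟩
    rw [psi_pr, psi_pr, e1]
    change Q.pr C' (algebraMap C C' u) n (φ m) * Q.pr C' (algebraMap C C' u) n G =
      Q.pr C' (algebraMap C C' u) n (φ x)
    rw [← map_mul, ← hx, mul_comm]
  obtain ⟨q', hq', he, hiso⟩ := (h _ _ (psi C C' u n)
    (M.map ((Q.pr C u n).comp MvPolynomial.C)) h1 h2).2 q (by
      rintro _ ⟨m, hm, rfl⟩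
      exact hq m hm)
  refine ⟨q', hq', fun c => ?_, hiso⟩
  rw [he, Ideal.mem_comap, psi_pr, MvPolynomial.map_C]

end Pool.Agent.W274.BQN
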